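import Pool.Agent.H88.MCR.Stmts3

/-!
# Row CRG of the board `mcr`, part 3 (relative form of CNG, after helper54 and helper48, and
the twin property)
-/

set_option autoImplicit false

namespace Pool.MCR

/-- One of the two crossings, for two neighbours `x, y` of `w`, in the cases `w x` upper and
(`w y` lower or later). -/
theorem crg_up {L : Type} [LinearOrder L] (hLOC : LOC_S) {n : ℕ}
    {D : Diag L} {w u t : ℕ} {r : ℕ → ℤ}
    (hA : (clone D n w r).A n u =
      (if D.S w u = true then
        [((false, lp (D.pos w) 1, lp (D.pos w) (- r u)) : Arc (L ×ₗ ℤ))] else []) ++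
        (D.A w u).map (la D w r u))
    (hB : (clone D n w r).A w t = (D.A w t).map l0)
    (hr : 0 < r u) (k1 : (D.S w t, D.pos w, D.nx w t) ∈ D.A w t) (k1' : D.nx w t ≠ D.pos w)
    (k2 : (D.S w u, D.pos w, D.nx w u) ∈ D.A w u)
    (hS : D.S w u = true)
    (hKL : D.S w t = false ∨ KL (D.pos w) (D.nx w u) (D.nx w t)) :
    EX ((clone D n w r).A n u) ((clone D n w r).A w t) := by
  rw [if_pos hS] at hA
  rcases hs : D.S w t with _ | _
  · refine ⟨(false, lp (D.pos w) 1, lp (D.pos w) (- r u)), ?_,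
      l0 (D.S w t, D.pos w, D.nx w t), ?_, ?_, ?_⟩
    · rw [hA]
      exact List.mem_append_left _ (List.mem_singleton.mpr rfl)
    · rw [hB]
      exact List.mem_map_of_mem k1
    · exact hs.symm
    · exact hLOC L |>.2.2.1 (D.pos w) (D.nx w t) (r u) 0 k1' hr
  · have hKL' : KL (D.pos w) (D.nx w u) (D.nx w t) := by
      rcases hKL with h | h
      · rw [hs] at h
        exact absurd h (by decide)
      · exact h
    refine ⟨la D w r u (D.S w u, D.pos w, D.nx w u), ?_,
      l0 (D.S w t, D.pos w, D.nx w t), ?_, ?_, ?_⟩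
    · rw [hA]
      exact List.mem_append_right _ (List.mem_map_of_mem k2)
    · rw [hB]
      exact List.mem_map_of_mem k1
    · show D.S w u = D.S w t
      rw [hs, hS]
    · have h5 := (hLOC L).2.2.2.1 (D.pos w) (D.nx w u) (D.nx w t) (r u)
        (if D.nx w u = D.pos u then 0 else (if D.S w u = true then 1 else -1))
        hKL' hr
      show Inter (lp (D.pos w) (if D.pos w = D.pos w then (if D.S w u = true then - r u else 1)
        else (if D.S w u = true then -1 else 1))) _ (lp (D.pos w) 0) (lp (D.nx w t) 0)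
      rw [if_pos rfl, if_pos hS]
      exact h5

/-- Both edges lower at `w`. -/
theorem crg_low {L : Type} [LinearOrder L] {n : ℕ}
    {D : Diag L} {w u t : ℕ} {r : ℕ → ℤ}
    (hA : (clone D n w r).A n u =
      (if D.S w u = true then
        [((false, lp (D.pos w) 1, lp (D.pos w) (- r u)) : Arc (L ×ₗ ℤ))] else []) ++
        (D.A w u).map (la D w r u))
    (hB : (clone D n w r).A w t = (D.A w t).map l0)
    (k1 : (D.S w t, D.pos w, D.nx w t) ∈ D.A w t)
    (k2 : (D.S w u, D.pos w, D.nx w u) ∈ D.A w u)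
    (hS : D.S w u = false) (hT : D.S w t = false)
    (h : Inter (lp (D.pos w) 1) (lp (D.nx w u)
      (if D.nx w u = D.pos u then 0 else (if D.S w u = true then 1 else -1)))
      (lp (D.pos w) 0) (lp (D.nx w t) 0)) :
    EX ((clone D n w r).A n u) ((clone D n w r).A w t) := by
  refine ⟨la D w r u (D.S w u, D.pos w, D.nx w u), ?_,
    l0 (D.S w t, D.pos w, D.nx w t), ?_, ?_, ?_⟩
  · rw [hA]
    exact List.mem_append_right _ (List.mem_map_of_mem k2)
  · rw [hB]
    exact List.mem_map_of_mem k1
  · show D.S w u = D.S w t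
    rw [hS, hT]
  · show Inter (lp (D.pos w) (if D.pos w = D.pos w then (if D.S w u = true then - r u else 1)
        else (if D.S w u = true then -1 else 1))) _ (lp (D.pos w) 0) (lp (D.nx w t) 0)
    rw [if_pos rfl, if_neg (by rw [hS]; decide)]
    exact h

theorem crg_thm (hINB : INB_S) (hPRJ : PRJ_S) (hLOC : LOC_S) (hLO8 : LO8_S) (hKLT : KLT_S)
    (hKIR : KIR_S) (hCLR : CLR_S) (hCLB : CLB_S) : CRG_S := by
  intro L _ R n D w r hG hw hR
  have hB := (hCLB L n D w r hw).2.1
  have hK := (hKIR L R n D hG).1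
  have hK3 := (hKIR L R n D hG).2.2
  refine ⟨?_, ?_⟩
  · intro u hu hwu z hz t ht _ _ _ _ _ hE
    have hA := hCLR L R n D w u r hG hw hu hwu
    obtain ⟨A, hA1, B, hB1, h1, h2⟩ := hE
    refine ⟨la D w r u A, ?_, l0 B, ?_, h1, ?_⟩
    · rw [hA]
      exact List.mem_append_right _ (List.mem_map_of_mem hA1)
    · rw [hB z hz t ht]
      exact List.mem_map_of_mem hB1
    · obtain ⟨-, h3, h4, h5, h6, -⟩ := (hINB L A.2.1 A.2.2 B.2.1 B.2.2).2.2.2 h2
      exact (hPRJ L A.2.1 A.2.2 B.2.1 B.2.2 _ _ _ _ h3 h4 h5 h6).mpr h2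
  · intro x hx y hy hwx hwy hxy
    have hAx := hCLR L R n D w x r hG hw hx hwx
    have hAy := hCLR L R n D w y r hG hw hy hwy
    have kx := hK w hw x hx hwx
    have ky := hK w hw y hy hwy
    have hrx : 0 < r x := lt_of_lt_of_le zero_lt_one (hR.1 x)
    have hry : 0 < r y := lt_of_lt_of_le zero_lt_one (hR.1 y)
    have hne : D.nx w x ≠ D.nx w y := hK3 w hw x hx y hy hwx hwy hxy
    rcases hsx : D.S w x with _ | _
    · rcases hsy : D.S w y with _ | _
      · -- both lower
        rcases hLO8 L (D.pos w) (D.nx w x) (D.nx w y)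
          (if D.nx w x = D.pos x then 0 else (if D.S w x = true then 1 else -1))
          (if D.nx w y = D.pos y then 0 else (if D.S w y = true then 1 else -1))
          kx.2.1 ky.2.1 hne with h | h
        · left
          exact crg_low hAx (hB w hw y hy) ky.2.2.1 kx.2.2.1 hsx hsy h
        · right
          exact crg_low hAy (hB w hw x hx) kx.2.2.1 ky.2.2.1 hsy hsx h
      · right
        exact crg_up hLOC hAy (hB w hw x hx) hry kx.2.2.1 kx.2.1 ky.2.2.1 hsy
          (Or.inl hsx)
    · rcases hsy : D.S w y with _ | _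
      · left
        exact crg_up hLOC hAx (hB w hw y hy) hrx ky.2.2.1 ky.2.1 kx.2.2.1 hsx
          (Or.inl hsy)
      · rcases (hKLT L (D.pos w)).2.2.1 (D.nx w x) (D.nx w y) kx.2.1 ky.2.1 hne with h | h
        · left
          exact crg_up hLOC hAx (hB w hw y hy) hrx ky.2.2.1 ky.2.1 kx.2.2.1 hsx
            (Or.inr h)
        · right
          exact crg_up hLOC hAy (hB w hw x hx) hry kx.2.2.1 kx.2.1 ky.2.2.1 hsy
            (Or.inr h)

end Pool.MCR
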