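import Pool.Agent.H88.MCR.Stmts4
import Pool.Agent.H57.RED.Stmts
import Pool.Agent.H89.MXC.Defs

/-!
# The drawing of the blow-up of `H0` (last step of the lower bound, MP_ffb5eb_co)

`low89_thm` is the form of helper89, `low57_thm` the form of helper57; both from BLF, B8G, B8X.
-/

set_option autoImplicit false

namespace Pool.MCR

theorem low_comm {V : Type} {G : SimpleGraph V} (D : Drawing G) {e f : Sym2 V}
    (h : D.Crosses e f) : D.Crosses f e := by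
  obtain ⟨p, h1, h2, h3⟩ := h
  exact ⟨p, h2, h1, h3⟩

theorem low_orb {V : Type} {G : SimpleGraph V} (D : Drawing G) (x y z t : V)
    (h : D.Crosses s(x, y) s(z, t)) :
    D.Crosses s(y, x) s(z, t) ∧ D.Crosses s(x, y) s(t, z) ∧ D.Crosses s(y, x) s(t, z) ∧
    D.Crosses s(z, t) s(x, y) ∧ D.Crosses s(z, t) s(y, x) ∧ D.Crosses s(t, z) s(x, y) ∧
    D.Crosses s(t, z) s(y, x) := by
  have e1 : s(y, x) = s(x, y) := Sym2.eq_swap
  have e2 : s(t, z) = s(z, t) := Sym2.eq_swap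
  rw [e1, e2]
  exact ⟨h, h, h, low_comm D h, low_comm D h, low_comm D h, low_comm D h⟩

theorem low_adj89 : ∀ a b : Fin 8, MXC.H0.Adj a b → R8 a.val b.val := by
  unfold R8
  decide

theorem low_adj_eq : ∀ a b : Fin 8, MXC.H0.Adj a b ↔ Red.H0.Adj a b := by
  intro a b
  have h : MXC.H0.Adj a b ↔ ((a, b) ∈ Red.h0 ∨ (b, a) ∈ Red.h0) := by
    revert a b
    decide
  exact h

theorem low_p25 : ∀ q ∈ Red.p25, (q.1.val, q.2.1.val, q.2.2.1.val, q.2.2.2.val) ∈ X8 ∧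
    MXC.H0.Adj q.1 q.2.1 ∧ MXC.H0.Adj q.2.2.1 q.2.2.2 ∧ q.1 ≠ q.2.2.1 ∧ q.1 ≠ q.2.2.2 ∧
    q.2.1 ≠ q.2.2.1 ∧ q.2.1 ≠ q.2.2.2 := by
  decide

/-- The oriented edges of `H0`. -/
def lowE : List (Fin 8 × Fin 8) :=
  [(0, 1), (0, 2), (1, 6), (2, 4), (2, 5), (3, 5), (3, 7), (4, 6), (4, 7), (6, 7),
   (1, 0), (2, 0), (6, 1), (4, 2), (5, 2), (5, 3), (7, 3), (6, 4), (7, 4), (7, 6)]

theorem low_edge : ∀ a b : Fin 8, MXC.H0.Adj a b → (a, b) ∈ lowE := by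
  unfold lowE
  decide

/-- The check for one pair of oriented edges. -/
def lowB (e f : Fin 8 × Fin 8) : Bool :=
  e.1 == f.1 || e.1 == f.2 || e.2 == f.1 || e.2 == f.2 ||
    MXC.miss.any (fun p => (MXC.orb p).contains (e.1, e.2, f.1, f.2)) ||
    Red.p25.any (fun p => (MXC.orb p).contains (e.1, e.2, f.1, f.2))

theorem low_all : (lowE.all fun e => lowE.all fun f => lowB e f) = true := by
  decide +kernel

theorem low_dec (e f : Fin 8 × Fin 8) (he : e ∈ lowE) (hf : f ∈ lowE) (n1 : e.1 ≠ f.1)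
    (n2 : e.1 ≠ f.2) (n3 : e.2 ≠ f.1) (n4 : e.2 ≠ f.2)
    (hm : ∀ p ∈ MXC.miss, (e.1, e.2, f.1, f.2) ∉ MXC.orb p) :
    ∃ q ∈ Red.p25, (e.1, e.2, f.1, f.2) ∈ MXC.orb q := by
  have h := List.all_eq_true.1 (List.all_eq_true.1 low_all e he) f hf
  unfold lowB at h
  simp only [Bool.or_eq_true, beq_iff_eq, List.any_eq_true, List.contains_iff_mem] at h
  rcases h with ((((h | h) | h) | h) | h) | h
  · exact absurd h n1
  · exact absurd h n2
  · exact absurd h n3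
  · exact absurd h n4
  · obtain ⟨p, hp, hp2⟩ := h
    exact absurd hp2 (hm p hp)
  · exact h

/-- The common form. -/
theorem low_core (hG : B8G_S) (hX : B8X_S) (hB : BLF_S) (w : Fin 8 → ℕ) :
    ∃ D : Drawing (MXC.blow MXC.H0 w),
      (∀ q ∈ Red.p25, ∀ x y z t : (Σ a : Fin 8, Fin (w a)), x.1 = q.1 → y.1 = q.2.1 →
        z.1 = q.2.2.1 → t.1 = q.2.2.2 → D.Crosses s(x, y) s(z, t)) ∧
      (∀ x y z t : (Σ a : Fin 8, Fin (w a)), MXC.H0.Adj x.1 y.1 → MXC.H0.Adj z.1 t.1 →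
        x.1 = z.1 → x ≠ z → y ≠ t → D.Crosses s(x, y) s(z, t) ∨ D.Crosses s(z, y) s(x, t)) := by
  obtain ⟨D, h1, h2⟩ := hB ℕ R8 8 B8 hG (Σ a : Fin 8, Fin (w a)) (fun v => v.1.val)
    (fun v => v.1.isLt) (MXC.blow MXC.H0 w) (fun u v h => low_adj89 u.1 v.1 h)
  refine ⟨D, ?_, ?_⟩
  · intro q hq x y z t hx hy hz ht
    obtain ⟨k0, k1, k2, k3, k4, k5, k6⟩ := low_p25 q hq
    have hne : ∀ {a b : Fin 8}, a ≠ b → a.val ≠ b.val := fun h h' => h (Fin.ext h')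
    apply h1
    · show MXC.H0.Adj x.1 y.1
      rw [hx, hy]
      exact k1
    · show MXC.H0.Adj z.1 t.1
      rw [hz, ht]
      exact k2
    · rw [hx, hz]
      exact hne k3
    · rw [hx, ht]
      exact hne k4
    · rw [hy, hz]
      exact hne k5
    · rw [hy, ht]
      exact hne k6
    · rw [hx, hy, hz, ht]
      exact hX _ k0
  · intro x y z t hxy hzt hxz hne hyt
    have hzy : MXC.H0.Adj z.1 y.1 := by
      rw [← hxz]
      exact hxy
    have hxt : MXC.H0.Adj x.1 t.1 := by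
      rw [hxz]
      exact hzt
    rcases h2 x z y t hne (congrArg Fin.val hxz) hyt hxy hxt hzy hzt with h | h
    · exact Or.inl h
    · exact Or.inr (low_comm D h)

theorem low89_thm (hG : B8G_S) (hX : B8X_S) (hB : BLF_S) : MXC.LOW_S := by
  intro w
  obtain ⟨D, h1, h2⟩ := low_core hG hX hB w
  refine ⟨D, ?_, h2⟩
  intro x y z t hxy hzt n1 n2 n3 n4 hm
  obtain ⟨q, hq, hq2⟩ := low_dec (x.1, y.1) (z.1, t.1) (low_edge _ _ hxy) (low_edge _ _ hzt)
    n1 n2 n3 n4 hm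
  have key := h1 q hq
  simp only [MXC.orb, List.mem_cons, List.not_mem_nil, or_false, Prod.mk.injEq] at hq2
  rcases hq2 with ⟨a, b, c, d⟩ | ⟨a, b, c, d⟩ | ⟨a, b, c, d⟩ | ⟨a, b, c, d⟩ | ⟨a, b, c, d⟩ |
    ⟨a, b, c, d⟩ | ⟨a, b, c, d⟩ | ⟨a, b, c, d⟩
  · exact key x y z t a b c d
  · exact (low_orb D _ _ _ _ (key y x z t b a c d)).1
  · exact (low_orb D _ _ _ _ (key x y t z a b d c)).2.1
  · exact (low_orb D _ _ _ _ (key y x t z b a d c)).2.2.1
  · exact (low_orb D _ _ _ _ (key z t x y c d a b)).2.2.2.1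
  · exact (low_orb D _ _ _ _ (key t z x y d c a b)).2.2.2.2.1
  · exact (low_orb D _ _ _ _ (key z t y x c d b a)).2.2.2.2.2.1
  · exact (low_orb D _ _ _ _ (key t z y x d c b a)).2.2.2.2.2.2

theorem low57_thm (hG : B8G_S) (hX : B8X_S) (hB : BLF_S) : Red.LOW_S := by
  have e : MXC.blow MXC.H0 Red.wt = Red.blow Red.H0 := by
    ext u v
    exact low_adj_eq u.1 v.1
  have h := low_core hG hX hB Red.wt
  rw [e] at h
  obtain ⟨D, h1, h2⟩ := h
  refine ⟨D, h1, ?_⟩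
  intro x x' y z hx hy hxx hxy hxz
  have g1 : MXC.H0.Adj x.1 y.1 := (low_adj_eq _ _).2 hxy
  have g2 : MXC.H0.Adj x'.1 z.1 := by
    rw [← hxx]
    exact (low_adj_eq _ _).2 hxz
  rcases h2 x y x' z g1 g2 hxx hx hy with h | h
  · exact Or.inl h
  · exact Or.inr (low_comm D h)

end Pool.MCR
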