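import Pool.Agent.H88.MCR.Asm
import Pool.Agent.H70.MCR.B8G
import Pool.Agent.H63.MCR.B8X
import Pool.Agent.H27.MCR.BLF
import Pool.Agent.H27.MCR.BLO
import Pool.Agent.H52.MCR.CLR
import Pool.Agent.H84.MCR.CPR
import Pool.Agent.H25.MCR.CR2
import Pool.Agent.H95.MCR.CRD
import Pool.Agent.H45.MCR.CRG
import Pool.Agent.H60.MCR.CRJ
import Pool.Agent.H17.MCR.CRN
import Pool.Agent.H17.MCR.CRO
import Pool.Agent.H95.MCR.CRP
import Pool.Agent.H15.MCR.CRS
import Pool.Agent.H33.MCR.CTR
import Pool.Agent.H54.MCR.CVR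
import Pool.Agent.H65.MCR.DRR
import Pool.Agent.H36.MCR.KIR
import Pool.Agent.H67.MCR.LO8
import Pool.Agent.H33.MCR.RKR
import Pool.Agent.H3.MCR.TRR
import Pool.Agent.H45.MCR.LOW

/-!
# Assembly of the lower bound of MP_ffb5eb_co (Q1)
-/

namespace Pool.MCR

theorem kir_done : KIR_S := kir_thm arn_thm ahd_thm
theorem rkr_done : RKR_S := rkr_thm klt_thm
theorem crn_done : CRN_S := crn_thm inb_thm prj_thm loc_thm klt_thm kir_done clr_thm clb_done
theorem crs_done : CRS_S := crs_thm inb_thm prj_thm loc_thm kir_done clr_thm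
theorem cro_done : CRO_S := cro_thm inb_thm prj_thm loc_thm kir_done clr_thm clb_done
theorem cr2_done : CR2_S := cr2_thm prj_thm loc_thm kir_done clr_thm clb_done old_thm
theorem crg_done : CRG_S :=
  crg_thm inb_thm prj_thm loc_thm lo8_thm klt_thm kir_done clr_thm clb_done
theorem crj_done : CRJ_S := crj_thm kir_done klt_thm
theorem crd_done : CRD_S :=
  crd_thm old_thm clb_done crn_done crs_done cro_done cr2_done crp_thm crj_done
theorem blo_done : BLO_S := blo_thm crg_done crd_done rkr_done old_thm clb_done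
theorem trr_done : TRR_S := trr_thm gen_thm arm_thm
theorem cpr_done : CPR_S := cpr_thm kir_done in0_thm in1_thm pro_thm inb_thm
theorem ctr_done : CTR_S := ctr_thm cpr_done kir_done ept_thm inb_thm in0_thm
theorem cvr_done : CVR_S := cvr_thm ept_thm kir_done
theorem drr_done : DRR_S := drr_thm kir_done cur_done cpr_done ctr_done cvr_done in1_thm
theorem blf_done : BLF_S := blf_thm blo_done trr_done drr_done

/-- The drawing of the blow-up of `H0`, form of helper89. -/
theorem low89_done : MXC.LOW_S := low89_thm b8g_thm b8x_thm blf_done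

/-- The drawing of the blow-up of `H0`, form of helper57. -/
theorem low57_done : Red.LOW_S := low57_thm b8g_thm b8x_thm blf_done

end Pool.MCR
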