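import Pool.Agent.H88.MCR.Stmts

/-!
Row CUR: a chain of arcs is a simple curve.  Induction on the list of inner points.
-/

namespace Pool.MCR

theorem cur_mem_start (m : List ℝ) (c z : ℝ) (s : Bool)
    (hE : EPT_S) : (c, (0 : ℝ)) ∈ curve (arcs s (c :: (m ++ [z]))) := by
  cases m with
  | nil =>
    refine ⟨(s, c, z), ?_, (hE s c z).1.1⟩
    simp [arcs]
  | cons d m' =>
    refine ⟨(s, c, d), ?_, (hE s c d).1.1⟩
    simp [arcs]

theorem cur_thm (hP : PAR_S) (hC : CAT_S) (hI : IN0_S) (hE : EPT_S) (hA : ARN_S) : CUR_S := by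
  intro h m
  induction m generalizing h with
  | nil =>
    intro z s hn _
    have hne : h ≠ z := by
      intro e
      subst e
      simp at hn
    have hc : curve (arcs s (h :: ([] ++ [z]))) = arcSet s h z := by
      ext p
      simp [curve, arcs]
    rw [hc]
    exact hP s h z hne
  | cons c m' ih =>
    intro z s hn hN
    have hl : arcs s (h :: ((c :: m') ++ [z])) = (s, h, c) :: arcs (!s) (c :: (m' ++ [z])) := by
      simp [arcs]
    have hn' : (c :: (m' ++ [z])).Nodup := by
      have := hn
      simp only [List.cons_append] at this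
      exact (List.nodup_cons.1 this).2
    have hh : h ∉ (c :: (m' ++ [z])) := by
      have := hn
      simp only [List.cons_append] at this
      exact (List.nodup_cons.1 this).1
    have hhc : h ≠ c := by
      intro e
      exact hh (by rw [e]; exact List.mem_cons_self)
    rw [hl] at hN ⊢
    have hN' : NC (arcs (!s) (c :: (m' ++ [z]))) (arcs (!s) (c :: (m' ++ [z]))) := by
      intro A hAm B hB
      exact hN A (List.mem_cons_of_mem _ hAm) B (List.mem_cons_of_mem _ hB)
    have h2 := ih c z (!s) hn' hN'
    have hU : curve ((s, h, c) :: arcs (!s) (c :: (m' ++ [z]))) =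
        arcSet s h c ∪ curve (arcs (!s) (c :: (m' ++ [z]))) := by
      ext p
      constructor
      · rintro ⟨A, hAm, hp⟩
        rcases List.mem_cons.1 hAm with rfl | hAm
        · exact Or.inl hp
        · exact Or.inr ⟨A, hAm, hp⟩
      · rintro (hp | ⟨A, hAm, hp⟩)
        · exact ⟨(s, h, c), List.mem_cons_self, hp⟩
        · exact ⟨A, List.mem_cons_of_mem _ hAm, hp⟩
    rw [hU]
    refine hC _ _ _ _ _ (hP s h c hhc) h2 ?_
    ext p
    constructor
    · rintro ⟨hp1, ⟨⟨t, a, b⟩, hAm, hp2⟩⟩
      obtain ⟨ha, hb, hab⟩ := (hA ℝ _ (!s) hn').1 t a b hAm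
      have h1 : h ≠ a := fun e => hh (e ▸ ha)
      have h3 : h ≠ b := fun e => hh (e ▸ hb)
      have hcr : ¬ (s = t ∧ Inter h c a b) := fun hx =>
        hN (s, h, c) List.mem_cons_self (t, a, b) (List.mem_cons_of_mem _ hAm) hx
      obtain ⟨q1, q2, q3⟩ := hI s t h c a b hhc hab hcr (fun hx => h1 hx.2.1)
        (fun hx => h3 hx.2.1) p hp1 hp2
      have q4 : p.1 = c := by
        rcases q2 with q2 | q2
        · rcases q3 with q3 | q3
          · exact absurd (q2.symm.trans q3) h1
          · exact absurd (q2.symm.trans q3) h3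
        · exact q2
      rw [Set.mem_singleton_iff]
      exact Prod.ext q4 q1
    · intro hp
      rw [Set.mem_singleton_iff] at hp
      subst hp
      exact ⟨(hE s h c).1.2.1, cur_mem_start m' c z (!s) hE⟩

end Pool.MCR
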