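import Pool.Agent.H88.MCR.Stmts2

/-!
Row CYC: all cycles except the 4-cycle.
-/

namespace Pool.MCR

theorem cyc_step (m : ℕ) (hm : 3 ≤ m) (x y : ℕ) (h : cycT (m + 2) x y) :
    repE (cycT m) m (m - 1) 0 x y := by
  unfold cycT at h
  unfold repE cycT
  rcases h with ⟨h1, h2⟩ | ⟨h1, h2, h3⟩
  · by_cases hy : y < m
    · left
      refine ⟨Or.inl ⟨h1, hy⟩, ?_, ?_⟩
      · rintro ⟨a, b⟩
        omega
      · rintro ⟨a, b⟩
        omega
    · by_cases hy2 : y = m
      · right; left
        exact ⟨by omega, hy2⟩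
      · right; right; left
        exact ⟨by omega, by omega⟩
  · right; right; right
    exact ⟨by omega, h2⟩

theorem cyc_thm (hCVX : CVX_S) (hB : B6G_S) (hSTC : STC_S) : CYC_S := by
  intro m
  induction m using Nat.strong_induction_on with
  | _ m ih =>
    intro h3 h4
    by_cases e3 : m = 3
    · subst e3
      refine ⟨ℕ, inferInstance, _, hCVX 3, ?_⟩
      intro x hx y hy z hz t ht h1 h2 h5 h6 h7 h8
      omega
    by_cases e6 : m = 6
    · subst e6
      exact ⟨ℕ, inferInstance, B6, hB.1, hB.2⟩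
    obtain ⟨k, rfl⟩ : ∃ k, m = k + 2 := ⟨m - 2, by omega⟩
    obtain ⟨L, iL, D, hG, hT⟩ := ih k (by omega) (by omega) (by omega)
    obtain ⟨L', iL', D', hG', hT'⟩ := @hSTC L iL k D (cycT k) (k - 1) 0
      (by
        intro x y h
        unfold cycT at h
        omega) hG hT (by omega) (by omega) (by omega)
      (Or.inl (by unfold cycT; right; exact ⟨by omega, rfl, by omega⟩))
    refine ⟨L', iL', D', hG', ?_⟩
    intro x hx y hy z hz t ht h1 h2 h5 h6 h7 h8 hxy hzt
    refine hT' x hx y hy z hz t ht h1 h2 h5 h6 h7 h8 ?_ ?_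
    · rcases hxy with h | h
      · exact Or.inl (cyc_step k (by omega) x y h)
      · exact Or.inr (cyc_step k (by omega) y x h)
    · rcases hzt with h | h
      · exact Or.inl (cyc_step k (by omega) z t h)
      · exact Or.inr (cyc_step k (by omega) t z h)

end Pool.MCR
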